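import Pool.Agent.U3.MR.Defs
import Pool.Agent.U3.QP.Strong

/-!
# Correspondences through motives with nilpotent endomorphisms generate nilpotent ideals
-/

set_option autoImplicit false

open CategoryTheory AlgebraicGeometry

universe u v w

namespace Pool.Agent.U3.MR

open Pool.Agent.H914 Pool.Agent.H914.VarClass Pool.Agent.H914.VarClass.Obj Pool.Agent.W492.BB
  Pool.Agent.W550.Corr Pool.Agent.TH133 Pool.Agent.TH829.Kim Pool.Agent.U3.SD Pool.Agent.U3.QP

set_option linter.unusedSectionVars false

variable {k : Type u} [Field k] {𝒱 : VarClass k}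

variable {C : TheoryData.{u, v, 0} 𝒱 ℚ} [hC : IsChowProj C] {K : Type w} [Field K]
  {H : WeilTheoryData.{u, v, w} C K} [hH : IsWeilProj H] {X Y Z W : 𝒱.Obj}

include hC hH

variable (H) in
/-- The correspondences `x e`, `x` homologically trivial. -/
noncomputable def trE (e : Cor C Y) : Submodule ℚ (Cor C Y) :=
  (triv H Y).map (LinearMap.mulRight ℚ e)

lemma mem_trE {e w : Cor C Y} (hw : w ∈ triv H Y) : w * e ∈ trE H e :=
  ⟨w, hw, LinearMap.mulRight_apply ℚ e w⟩

lemma trE_pow_le (e : C.A (Y.prod Y)) (N : ℕ) : trE H (Y := Y) e ^ N ≤ Submodule.span ℚ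
    {z : Cor C Y | ∃ x : Fin N → C.A (Y.prod Y), (∀ i, H.cl (x i) = 0) ∧
      C.comp (z : C.A (Y.prod Y)) e =
        (List.ofFn x).foldr (fun y z => C.comp (C.comp e y) z) e} := by
  induction N with
  | zero =>
    rw [pow_zero, Submodule.one_le]
    refine Submodule.subset_span ⟨fun i => i.elim0, fun i => i.elim0, ?_⟩
    rw [List.ofFn_zero, List.foldr_nil]
    exact dg_comp C e
  | succ N ih =>
    rw [pow_succ, Submodule.mul_le]
    rintro y hy _ ⟨w, hw, rfl⟩
    have h1 := ih hy
    clear hy
    rw [LinearMap.mulRight_apply]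
    induction h1 using Submodule.span_induction with
    | mem y hy =>
      obtain ⟨x, hx, hyx⟩ := hy
      refine Submodule.subset_span ⟨Fin.cons (α := fun _ => C.A (Y.prod Y)) w x, fun i => ?_, ?_⟩
      · refine Fin.cases ?_ (fun j => ?_) i
        · exact hw
        · exact hx j
      · rw [List.ofFn_succ, List.foldr_cons]
        have e1 : ∀ (y w : C.A (Y.prod Y)), C.comp y e =
            (List.ofFn x).foldr (fun y z => C.comp (C.comp e y) z) e →
            C.comp (C.comp (C.comp e w) y) e = C.comp (C.comp e w)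
              ((List.ofFn x).foldr (fun y z => C.comp (C.comp e y) z) e) := fun y w h => by
          rw [← h, comp_assoc C]
        exact e1 y w hyx
    | zero => rw [zero_mul]; exact Submodule.zero_mem _
    | add y y' _ _ hy hy' => rw [add_mul]; exact Submodule.add_mem _ hy hy'
    | smul q y _ hy => rw [smul_mul_assoc]; exact Submodule.smul_mem _ _ hy

omit hH in
lemma add_comp_zero {e y y' : C.A (Y.prod Y)} (h : C.comp y e = 0) (h' : C.comp y' e = 0) :
    C.comp (y + y') e = 0 := by
  have e1 : C.comp (y + y') e = C.comp y e + C.comp y' e :=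
    mul_add (R := Cor C Y) e y y'
  rw [e1, h, h', add_zero]

omit hH in
lemma smul_comp_zero (q : ℚ) {e y : C.A (Y.prod Y)} (h : C.comp y e = 0) :
    C.comp (q • y) e = 0 := by
  have e1 : C.comp (q • y) e = q • C.comp y e :=
    mul_smul_comm (α := ℚ) (β := Cor C Y) q e y
  rw [e1, h, smul_zero]

omit hH in
lemma zero_comp_self (e : C.A (Y.prod Y)) : C.comp (0 : C.A (Y.prod Y)) e = 0 := by
  rw [zero_comp]

lemma NilMotive.exists_pow {e : C.A (Y.prod Y)} (h : NilMotive H e) : ∃ N : ℕ,
    ∀ z ∈ trE H (Y := Y) e ^ N, C.comp (z : C.A (Y.prod Y)) e = 0 := by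
  obtain ⟨N, hN⟩ := h
  refine ⟨N, fun z hz => ?_⟩
  have h1 := trE_pow_le (H := H) e N hz
  clear hz
  induction h1 using Submodule.span_induction with
  | mem z hz =>
    obtain ⟨x, hx, hzx⟩ := hz
    rw [hzx]
    exact hN x hx
  | zero => exact zero_comp_self e
  | add y y' _ _ hy hy' => exact add_comp_zero hy hy'
  | smul q y _ hy => exact smul_comp_zero q hy

omit hH in
lemma aux1 (a : C.A (X.prod Y)) (b : C.A (Y.prod X)) (e : C.A (Y.prod Y))
    (j r : C.A (X.prod X)) :
    C.comp j (C.comp (C.comp (C.comp a e) b) r) =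
      C.comp (C.comp (C.comp j a) (C.comp (dg C Y) e)) (C.comp b r) := by
  rw [dg_comp]
  simp only [comp_assoc C]

omit hH in
lemma aux2 (a : C.A (X.prod Y)) (b : C.A (Y.prod X)) (e : C.A (Y.prod Y))
    (j r u v : C.A (X.prod X)) (y : C.A (Y.prod Y)) :
    C.comp (C.comp j (C.comp (C.comp (C.comp a e) b) r))
        (C.comp (C.comp (C.comp u a) (C.comp y e)) (C.comp b v)) =
      C.comp (C.comp (C.comp j a) (C.comp
        (C.comp (C.comp e (C.comp (C.comp (C.comp b r) u) a)) y) e)) (C.comp b v) := by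
  simp only [comp_assoc C]

/-- Correspondences through a motive with `NilMotive`. -/
theorem str_comp2 {a : C.A (X.prod Y)} {b : C.A (Y.prod X)} {e : C.A (Y.prod Y)}
    (hY : NilMotive H e) : Str H (X := X) (C.comp (C.comp a e) b) := by
  obtain ⟨K₀, hK⟩ := NilMotive.exists_pow hY
  let z : Cor C X := C.comp (C.comp a e) b
  let eE : Cor C Y := e
  let I : Submodule ℚ (Cor C X) := Submodule.span ℚ {x | ∃ r : Cor C X, ∃ j ∈ triv H X, x = r * z * j}
  let P : ℕ → Submodule ℚ (Cor C X) := fun n => Submodule.span ℚ {x | ∃ u ∈ triv H X,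
    ∃ v : C.A (X.prod X), ∃ y ∈ trE H eE ^ n,
      x = C.comp (C.comp (C.comp (u : C.A (X.prod X)) a) (C.comp (y : C.A (Y.prod Y)) e))
        (C.comp b v)}
  have hI : ∀ r : Cor C X, ∀ j ∈ triv H X, r * z * j ∈ I := fun r j hj =>
    Submodule.subset_span ⟨r, j, hj, rfl⟩
  have key : ∀ n, I ^ (n + 1) ≤ P n := by
    intro n
    induction n with
    | zero =>
      rw [zero_add, pow_one]
      apply Submodule.span_le.2
      rintro _ ⟨r, j, hj, rfl⟩
      refine Submodule.subset_span ⟨j, hj, r, 1, ?_, ?_⟩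
      · rw [pow_zero]
        exact Submodule.one_le.1 le_rfl
      · exact aux1 a b e j r
    | succ n ih =>
      rw [pow_succ]
      refine (mul_le_mul' ih le_rfl).trans ?_
      rw [Submodule.span_mul_span]
      apply Submodule.span_le.2
      rintro _ ⟨x, ⟨u, hu, v, y, hy, rfl⟩, _, ⟨r, j, hj, rfl⟩, rfl⟩
      let w : Cor C Y := C.comp (C.comp (C.comp b (r : C.A (X.prod X))) (u : C.A (X.prod X))) a
      have hw : w ∈ triv H Y := by
        rw [mem_triv]
        exact aux3 a b r hu
      refine Submodule.subset_span ⟨j, hj, v, y * (w * eE), ?_, ?_⟩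
      · rw [pow_succ]
        exact Submodule.mul_mem_mul hy (mem_trE hw)
      · exact aux2 a b e j r u v y
  refine ⟨I, ?_, ?_, hI, K₀ + 1, ?_⟩
  · intro x hx r
    induction hx using Submodule.span_induction with
    | mem x hx =>
      obtain ⟨r', j, hj, rfl⟩ := hx
      rw [← mul_assoc, ← mul_assoc]
      exact hI _ _ hj
    | zero => rw [mul_zero]; exact I.zero_mem
    | add x y _ _ hx hy => rw [mul_add]; exact I.add_mem hx hy
    | smul q x _ hx => rw [mul_smul_comm]; exact I.smul_mem _ hx
  · intro x hx r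
    induction hx using Submodule.span_induction with
    | mem x hx =>
      obtain ⟨r', j, hj, rfl⟩ := hx
      rw [mul_assoc]
      exact hI _ _ (triv_mul_right r hj)
    | zero => rw [zero_mul]; exact I.zero_mem
    | add x y _ _ hx hy => rw [add_mul]; exact I.add_mem hx hy
    | smul q x _ hx => rw [smul_mul_assoc]; exact I.smul_mem _ hx
  · rw [eq_bot_iff]
    refine (key K₀).trans ?_
    apply Submodule.span_le.2
    rintro _ ⟨u, -, v, y, hy, rfl⟩
    have hy0 := hK y hy
    have e1 : ∀ y' : C.A (Y.prod Y), y' = 0 →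
        C.comp (C.comp (C.comp (u : C.A (X.prod X)) a) y') (C.comp b v) = 0 := fun y' h => by
      rw [h]
      exact Pool.Agent.U3.QP.aux4 a (C.comp b v) u
    exact (Submodule.mem_bot (R := ℚ) (M := Cor C X)).2 (e1 _ hy0)

lemma Str.sum {ι : Type*} (s : Finset ι) (f : ι → Cor C X) (h : ∀ i ∈ s, Str H (f i)) :
    Str H (∑ i ∈ s, f i) := by
  classical
  induction s using Finset.induction_on with
  | empty => rw [Finset.sum_empty]; exact Str.zero
  | insert a s ha ih =>
    rw [Finset.sum_insert ha]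
    exact Str.add (h a (Finset.mem_insert_self a s)) (ih fun i hi => h i (Finset.mem_insert_of_mem hi))

end Pool.Agent.U3.MR
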