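import Pool.Agent.U3.MR.Ring
import Pool.Agent.U3.MR.Nil
import Pool.Agent.U3.MQ.Base

/-!
# Decompositions of a motive with a finite group, from a family of endomorphisms
-/

set_option autoImplicit false

open CategoryTheory AlgebraicGeometry

universe u v w

namespace Pool.Agent.U3.MR

open Pool.Agent.H914 Pool.Agent.H914.VarClass Pool.Agent.H914.VarClass.Obj Pool.Agent.W492.BB
  Pool.Agent.W550.Corr Pool.Agent.TH133 Pool.Agent.TH829.Kim Pool.Agent.U3.SD Pool.Agent.U981.EQ
  Pool.Agent.U3.QP Pool.Agent.U3.MQ

set_option linter.unusedSectionVars false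

variable {k : Type u} [Field k] {𝒱 : VarClass k}

variable {C : TheoryData.{u, v, 0} 𝒱 ℚ} {K : Type w} [Field K]
  {H : WeilTheoryData.{u, v, w} C K} {X Y Z W : 𝒱.Obj} [hC : IsChowProj C] [hH : IsWeilProj H]
  {G : Type} [Group G]

include hC hH

lemma rd_str {q B : cor0 C X} (hB : Str H ((B : cor0 C X) : Cor C X))
    (hJ : rhoH H X (q * B) = 0) : Rd (q * B) := by
  obtain ⟨I, hI, hnil⟩ := hB.exists_nil
  apply rd_of_nil
  intro r
  have hJr : rhoH H X (r * (q * B)) = 0 := by rw [map_mul, hJ, mul_zero]
  have h1 := hI (r * q) (r * (q * B)) hJr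
  obtain ⟨n, hn⟩ := hnil _ h1
  refine ⟨2 * n, ?_⟩
  rw [pow_mul, sq]
  have h2 : r * q * B * (r * (q * B)) = r * (q * B) * (r * (q * B)) := by
    simp only [mul_assoc]
  rw [h2] at hn
  exact hn

/-- **The decomposition.** -/
theorem core [Finite G] {p : C.A (X.prod X)} {ρ : G → C.A (X.prod X)}
    (hρ : IsMotAction C p ρ) {ι : Type} [Fintype ι] (B : ι → cor0 C X) (wt : ι → ℤ) {m : ℕ}
    (hm : m < 2 * X.dim + 1) (hsum : ∑ s, B s = pR hρ)
    (hne : ∀ s (c : ℤ) (x : H.A X), x ∈ H.gr X c → c ≠ wt s → rhoH H X (B s) x = 0)
    (hstr : ∀ s, wt s ≠ m → Str H ((B s : cor0 C X) : Cor C X)) :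
    ∃ q : ℕ → cor0 C X, CKp H p (fun i => ((q i : cor0 C X) : Cor C X)) ∧
      (∀ g i, C.comp (ρ g) ((q i : cor0 C X) : Cor C X) =
        C.comp ((q i : cor0 C X) : Cor C X) (ρ g)) ∧
      (∀ i, pR hρ * q i = q i) ∧
      (∀ i : ℕ, ∃ u : cor0 C X,
        u * (1 - ∑ s ∈ Finset.univ.filter (fun s => wt s ≠ i), q i * B s) = 1) ∧
      ∀ i : ℕ, i ≠ m → ∀ x, rhoH H X x = 0 → IsNilpotent (q i * x) := by
  classical
  have := Fintype.ofFinite G
  set P : cor0 C X := pR hρ with hP
  have hPc : ∀ x : H.A X, rhoH H X P x = H.act (H.cl p) x := fun x => rfl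
  have hPP : ∀ x : H.A X, rhoH H X P (rhoH H X P x) = rhoH H X P x := fun x => by
    rw [← Module.End.mul_apply, ← map_mul, hP, pR_pR]
  let A : ℕ → cor0 C X := fun i => ∑ s ∈ Finset.univ.filter (fun s => wt s = i), B s
  have hact : ∀ (i : ℕ) (j : ℤ) (x : H.A X), x ∈ H.gr X j →
      rhoH H X (A i) x = if j = i then rhoH H X P x else 0 := fun i j x hx => by
    simp only [A]
    rw [map_sum, LinearMap.sum_apply]
    split_ifs with hj
    · rw [← hsum, map_sum, LinearMap.sum_apply, Finset.sum_filter]
      refine Finset.sum_congr rfl fun s _ => ?_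
      split_ifs with h
      · rfl
      · exact (hne s j x hx (fun h' => h (by rw [← h', hj]))).symm
    · apply Finset.sum_eq_zero
      intro s hs
      rw [Finset.mem_filter] at hs
      exact hne s j x hx (fun h' => hj (by rw [h', hs.2]))
  have hAstr : ∀ i : ℕ, i ≠ m → Str H ((A i : cor0 C X) : Cor C X) := by
    intro i him
    have e : ((A i : cor0 C X) : Cor C X) = ∑ s ∈ Finset.univ.filter (fun s => wt s = i),
        ((B s : cor0 C X) : Cor C X) := map_sum (cor0 C X).subtype B _
    rw [e]
    apply Str.sum
    intro s hs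
    rw [Finset.mem_filter] at hs
    exact hstr s (by rw [hs.2]; exact_mod_cast him)
  obtain ⟨q, q1, q2, q3, q4, q5, q6⟩ := exists_decomp2 (rhoH H X) (homR hρ) (p := P) (pR_pR hρ)
    (fun g => by rw [hP, homR_p, p_homR]) hm A
    (fun i hi him j hj hjm => by
      apply ext_gr H
      intro l x hx
      rw [map_mul, Module.End.mul_apply, hact j l x hx]
      by_cases hij : i = j
      · subst hij
        rw [if_pos rfl, hact i l x hx]
        by_cases hl : l = i
        · rw [if_pos hl, hact i l _ (rho_gr P hx), if_pos hl, hPP]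
        · rw [if_neg hl, map_zero]
      · rw [if_neg hij, LinearMap.zero_apply]
        by_cases hl : l = j
        · rw [if_pos hl, hact i l _ (rho_gr P hx), if_neg (by omega)]
        · rw [if_neg hl, map_zero])
    (fun i hi him => by
      constructor
      · apply ext_gr H
        intro l x hx
        rw [map_mul, Module.End.mul_apply, hact i l x hx]
        split_ifs
        · exact hPP x
        · rw [map_zero]
      · apply ext_gr H
        intro l x hx
        rw [map_mul, Module.End.mul_apply, hact i l x hx, hact i l _ (rho_gr P hx)]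
        split_ifs
        · exact hPP x
        · rfl)
    (fun i hi him => (hAstr i him).exists_nil)
    (fun i hi him g => by
      apply ext_gr H
      intro l x hx
      rw [map_mul, map_mul, Module.End.mul_apply, Module.End.mul_apply, hact i l x hx,
        hact i l _ (rho_gr _ hx)]
      split_ifs
      · rw [← Module.End.mul_apply, ← Module.End.mul_apply, ← map_mul, ← map_mul, hP, homR_p,
          p_homR]
      · rw [map_zero])
  have hq : ∀ (i : ℕ) (j : ℤ) (x : H.A X), x ∈ H.gr X j →
      rhoH H X (q i) x = if j = i then rhoH H X P x else 0 := by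
    have h1 : ∀ i < 2 * X.dim + 1, i ≠ m → ∀ (j : ℤ) (x : H.A X), x ∈ H.gr X j →
        rhoH H X (q i) x = if j = i then rhoH H X P x else 0 := by
      intro i hi him j x hx
      rw [q4 i hi him]
      exact hact i j x hx
    intro i j x hx
    by_cases hx0 : x = 0
    · rw [hx0, map_zero, map_zero]
      split_ifs <;> rfl
    have hj0 := nonneg_of_mem H hx hx0
    have hj1 : j ≤ 2 * X.dim := by
      by_contra hcon
      rw [gr_top H (by omega)] at hx
      exact hx0 ((Submodule.mem_bot _).1 hx)
    by_cases hi : i < 2 * X.dim + 1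
    · by_cases him : i = m
      · subst him
        have h2 := congrArg (fun y => rhoH H X y x) q3
        simp only [map_sum, LinearMap.sum_apply] at h2
        rw [← Finset.add_sum_erase _ _ (Finset.mem_range.2 hm)] at h2
        have h3 : ∀ l ∈ (Finset.range (2 * X.dim + 1)).erase i, rhoH H X (q l) x =
            if j = l then rhoH H X P x else 0 := fun l hl => by
          rw [Finset.mem_erase, Finset.mem_range] at hl
          exact h1 l hl.2 hl.1 j x hx
        rw [Finset.sum_congr rfl h3] at h2
        obtain ⟨l, rfl⟩ := Int.eq_ofNat_of_zero_le hj0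
        split_ifs with hl
        · rw [Finset.sum_eq_zero, add_zero] at h2
          · exact h2
          · intro l' hl'
            rw [Finset.mem_erase] at hl'
            rw [if_neg (by omega)]
        · rw [Finset.sum_eq_single l] at h2
          · rw [if_pos rfl] at h2
            exact add_eq_right.1 h2
          · intro l' _ hl'
            rw [if_neg (by omega)]
          · intro h4
            exfalso
            apply h4
            rw [Finset.mem_erase, Finset.mem_range]
            exact ⟨by omega, by omega⟩
      · exact h1 i hi him j x hx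
    · rw [q2 i (by omega), map_zero, LinearMap.zero_apply, if_neg (by omega)]
  have hval : ∀ s : Finset ℕ, ((∑ i ∈ s, q i : cor0 C X) : Cor C X) =
      ∑ i ∈ s, ((q i : cor0 C X) : Cor C X) := fun s => map_sum (cor0 C X).subtype q s
  have e1 : ∀ i, P * q i = q i := by
    intro i
    by_cases hi : i < 2 * X.dim + 1
    · rw [← q3, Finset.sum_mul, Finset.sum_eq_single i]
      · rw [q1, if_pos rfl]
      · intro j _ hj
        rw [q1, if_neg hj]
      · exact fun h => absurd (Finset.mem_range.2 hi) h
    · rw [q2 i (by omega), mul_zero]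
  have e2 : ∀ i, q i * P = q i := by
    intro i
    by_cases hi : i < 2 * X.dim + 1
    · rw [← q3, Finset.mul_sum, Finset.sum_eq_single i]
      · rw [q1, if_pos rfl]
      · intro j _ hj
        rw [q1, if_neg (Ne.symm hj)]
      · exact fun h => absurd (Finset.mem_range.2 hi) h
    · rw [q2 i (by omega), zero_mul]
  refine ⟨q, ⟨?_, ?_, ?_, ?_, ?_⟩, ?_, e1, ?_, ?_⟩
  · exact fun i => (q i).2
  · intro i hi
    change ((q i : cor0 C X) : Cor C X) = 0
    rw [q2 i (by omega)]
    rfl
  · intro i j
    have h1 := congrArg (fun y : cor0 C X => (y : Cor C X)) (q1 j i)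
    by_cases hij : i = j
    · subst hij
      rw [if_pos rfl] at h1 ⊢
      exact h1
    · rw [if_neg (Ne.symm hij)] at h1
      rw [if_neg hij]
      exact h1
  · have h1 := congrArg (fun y : cor0 C X => (y : Cor C X)) q3
    exact (hval _).symm.trans h1
  · intro i j x hx
    exact hq i j x hx
  · intro g i
    have h1 : rR hρ g * q i = q i * rR hρ g := by
      have h2 := q5 i g
      have h3 : P * q i = q i * P := by rw [e1, e2]
      calc rR hρ g * q i = homR hρ g * P * q i := by rw [hP, homR_p]
        _ = homR hρ g * (q i * P) := by rw [mul_assoc, h3]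
        _ = q i * homR hρ g * P := by rw [← mul_assoc, h2]
        _ = q i * rR hρ g := by rw [mul_assoc, hP, homR_p]
    exact (congrArg Subtype.val h1).symm
  · intro i
    have hrd : Rd (∑ s ∈ Finset.univ.filter (fun s => wt s ≠ i), q i * B s) := by
      apply Rd.sum
      intro s hs
      rw [Finset.mem_filter] at hs
      by_cases hi : i < 2 * X.dim + 1
      · have hJ : rhoH H X (q i * B s) = 0 := by
          apply ext_gr H
          intro l x hx
          rw [map_mul, Module.End.mul_apply, LinearMap.zero_apply]
          by_cases hl : l = wt s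
          · rw [hq i l _ (rho_gr _ hx), if_neg (by rw [hl]; exact hs.2)]
          · rw [hne s l x hx hl, map_zero]
        by_cases him : wt s = m
        · have him' : i ≠ m := fun h => hs.2 (by rw [him, h])
          obtain ⟨I, hI, hnil⟩ := (hAstr i him').exists_nil
          apply rd_of_nil
          intro r
          apply hnil
          have h1 := mem_of_two (q6 i hi him') (J := fun x => rhoH H X x = 0)
            (fun r x hx => by rw [map_mul, hx, mul_zero]) hI (r := r) (j := q i * B s) hJ
          have h2 : r * q i * (q i * B s) = r * (q i * B s) := by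
            have h3 := q1 i i
            rw [if_pos rfl] at h3
            rw [mul_assoc, ← mul_assoc (q i), h3]
          rwa [h2] at h1
        · exact rd_str (hstr s him) hJ
      · rw [q2 i (by omega), zero_mul]
        exact Rd.zero
    obtain ⟨u, hu⟩ := hrd 1
    refine ⟨((u⁻¹ : (cor0 C X)ˣ) : cor0 C X), ?_⟩
    rw [one_mul] at hu
    rw [← hu, Units.inv_mul]
  · intro i him x hx
    by_cases hi : i < 2 * X.dim + 1
    · obtain ⟨I, hI, hnil⟩ := (hAstr i him).exists_nil
      have h1 := mem_of_two (q6 i hi him) (J := fun x => rhoH H X x = 0)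
        (fun r x hx => by rw [map_mul, hx, mul_zero]) hI (r := 1) (j := x) hx
      rw [one_mul] at h1
      exact hnil _ h1
    · rw [q2 i (by omega), zero_mul]
      exact IsNilpotent.zero

end Pool.Agent.U3.MR
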