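import Pool.Agent.U3.MQ.Defs

/-!
# Murre's conjectures for direct summands: definitions
-/

set_option autoImplicit false

open CategoryTheory AlgebraicGeometry

universe u v w

namespace Pool.Agent.U3.MR

open Pool.Agent.H914 Pool.Agent.H914.VarClass Pool.Agent.H914.VarClass.Obj Pool.Agent.W492.BB
  Pool.Agent.W550.Corr Pool.Agent.TH133 Pool.Agent.U3.SD Pool.Agent.U3.UC

variable {k : Type u} [Field k] {𝒱 : VarClass k}

section chow

variable (C : TheoryData.{u, v, 0} 𝒱 ℚ)

/-- The motive `(X, p)` is a direct summand of the direct sum of the motives `(Y t, q t)(-r t)`,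
`r t ∈ ℤ`, for `t` in a finite set: the composition of the morphisms
`a t : (X, p) → (Y t, q t)(-r t)` and `b t : (Y t, q t)(-r t) → (X, p)`, summed over `t`, is the
identity of `(X, p)`. (The morphisms are given by arbitrary correspondences `a t`, `b t` of the
right degrees; the projector `q t` is inserted.) Example: a surjective morphism `f : Y → X`
of varieties, one summand, `q` the diagonal of `Y`, `a` the transpose of the graph of `f` and `b` a
multiple of the composition of the class of a multisection with the graph of `f`. -/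
structure IsRetract {X : 𝒱.Obj} (p : C.A (X.prod X)) {T : Type} [Fintype T] {Y : T → 𝒱.Obj}
    (q : ∀ t, C.A ((Y t).prod (Y t))) (r : T → ℤ) (a : ∀ t, C.A (X.prod (Y t)))
    (b : ∀ t, C.A ((Y t).prod X)) : Prop where
  deg_a : ∀ t, C.Deg ((X.dim : ℤ) - r t) (a t)
  deg_b : ∀ t, C.Deg (((Y t).dim : ℤ) + r t) (b t)
  sum : ∑ t, C.comp (C.comp (a t) (q t)) (b t) = p

/-- `F^1 CH^i(M) = (π_0 + ... + π_{2i-1})_* CH^i(X)` for the motive `M = (X, p)` with the
Chow-Kunneth decomposition `π`. -/
def filOne {X : 𝒱.Obj} (π : ℕ → C.A (X.prod X)) (i : ℤ) : Set (C.A X) :=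
  {z | ∃ w : C.A X, C.Deg i w ∧
    z = C.act (∑ j ∈ (Finset.range (2 * X.dim + 1)).filter (fun j : ℕ => (j : ℤ) < 2 * i), π j) w}

end chow

section weil

variable {C : TheoryData.{u, v, 0} 𝒱 ℚ} {K : Type w} [Field K] (H : WeilTheoryData.{u, v, w} C K)

/-- A Chow-Kunneth decomposition of the Chow motive `M = (X, p)`: pairwise orthogonal idempotent
self-correspondences `π i` of degree zero, `0 ≤ i ≤ 2 dim X`, with sum `p`, such that `π i` acts on
`H^i(X)` like `p` and on `H^j(X)`, `j ≠ i`, as zero. For `X` itself `p` is the diagonal. -/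
structure IsMotCK {X : 𝒱.Obj} (p : C.A (X.prod X)) (π : ℕ → C.A (X.prod X)) : Prop where
  deg : ∀ i, C.Deg X.dim (π i)
  out : ∀ i, 2 * X.dim < i → π i = 0
  idem : ∀ i, C.comp (π i) (π i) = π i
  orth : ∀ i j, i ≠ j → C.comp (π i) (π j) = 0
  sum : ∑ i ∈ Finset.range (2 * X.dim + 1), π i = p
  act_self : ∀ (i : ℕ) (x : H.A X), H.Deg i x → H.act (H.cl (π i)) x = H.act (H.cl p) x
  act_ne : ∀ (i : ℕ) (m : ℤ) (x : H.A X), m ≠ i → H.Deg m x → H.act (H.cl (π i)) x = 0

/-- The homologically trivial endomorphisms of the motive `(Y, e)`, of all degrees, form a nilpotent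
ideal: for some `N` all compositions `x_1 e x_2 e ... x_N e`, preceded by `e`, of homologically
trivial correspondences `x_i` vanish. This holds if `(Y, e)` is finite-dimensional in the sense of
Kimura. -/
def NilMotive {Y : 𝒱.Obj} (e : C.A (Y.prod Y)) : Prop :=
  ∃ N : ℕ, ∀ x : Fin N → C.A (Y.prod Y), (∀ i, H.cl (x i) = 0) →
    (List.ofFn x).foldr (fun y z => C.comp (C.comp e y) z) e = 0

/-- Murre's condition (D) for cycles of codimension `i` on the motive `M = (X, p)` with the
Chow-Kunneth decomposition `π`: `F^1 CH^i(M)` is the kernel of the cycle class map on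
`CH^i(M) = p_* CH^i(X)`. -/
def SatisfiesD {X : 𝒱.Obj} (p : C.A (X.prod X)) (π : ℕ → C.A (X.prod X)) (i : ℤ) : Prop :=
  ∀ z : C.A X, z ∈ filOne C π i ↔ C.Deg i z ∧ C.act p z = z ∧ H.cl z = 0

/-- The motive `(X, e)` has no cycles of codimension `l`: `e_* CH^l(X) = 0`. -/
def NoCycles (C : TheoryData.{u, v, 0} 𝒱 ℚ) {X : 𝒱.Obj} (e : C.A (X.prod X)) (l : ℤ) : Prop :=
  ∀ z : C.A X, C.Deg l z → C.act e z = 0

/-- The direct summands of the motive `(X, p)` without cohomology (phantoms) have no cycles of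
codimension `l`. -/
def NoPhantomCycles {X : 𝒱.Obj} (p : C.A (X.prod X)) (l : ℤ) : Prop :=
  ∀ e : C.A (X.prod X), IsPhantom H e → C.comp p e = e → C.comp e p = e → NoCycles C e l

/-- The motive `(X, e)` has no homologically trivial cycles of codimension `l`:
`e_* CH^l(X)_hom = 0`. -/
def NoHomCycles {X : 𝒱.Obj} (e : C.A (X.prod X)) (l : ℤ) : Prop :=
  ∀ z : C.A X, C.Deg l z → H.cl z = 0 → C.act e z = 0

end weil

end Pool.Agent.U3.MR
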