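import Pool.Agent.U3.MR.Core
import Pool.Agent.U3.MQ.Sum
import Pool.Agent.U3.MQ.Main
import Pool.Agent.U3.UC.Mot

/-!
# Murre's conjectures for direct summands
-/

set_option autoImplicit false

open CategoryTheory AlgebraicGeometry

universe u v w

namespace Pool.Agent.U3.MR

open Pool.Agent.H914 Pool.Agent.H914.VarClass Pool.Agent.H914.VarClass.Obj Pool.Agent.W492.BB
  Pool.Agent.W550.Corr Pool.Agent.TH133 Pool.Agent.TH829.Kim Pool.Agent.U3.SD Pool.Agent.U981.EQ
  Pool.Agent.U3.QP Pool.Agent.U3.MQ Pool.Agent.U3.UC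

set_option linter.unusedSectionVars false

variable {k : Type u} [Field k] {𝒱 : VarClass k}

variable {C : TheoryData.{u, v, 0} 𝒱 ℚ} {K : Type w} [Field K]
  {H : WeilTheoryData.{u, v, w} C K} {X Y Z W : 𝒱.Obj} [hC : IsChowProj C] [hH : IsWeilProj H]
  {G : Type} [Group G]

include hC hH

lemma cl_act_zero' {Γ : C.A (X.prod Y)} {x : C.A X} (h : H.cl x = 0) :
    H.cl (C.act Γ x) = 0 := by
  rw [cl_act H, h]
  exact H.act_map_zero _

/-- From `CKp` to `IsMotCK`. -/
lemma IsMotCK.of {p : C.A (X.prod X)} {π : ℕ → C.A (X.prod X)} (h : CKp H p π) :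
    IsMotCK H p π where
  deg := h.deg
  out := h.out
  idem i := by rw [h.mul, if_pos rfl]
  orth i j hij := by rw [h.mul, if_neg hij]
  sum := h.sum
  act_self i x hx := by rw [h.act i _ x hx, if_pos rfl]
  act_ne i m x hm hx := by rw [h.act i _ x hx, if_neg hm]

/-- From `IsMotCK` to `CKp`. -/
lemma ckp_of {p : C.A (X.prod X)} {π : ℕ → C.A (X.prod X)} (h : IsMotCK H p π) : CKp H p π where
  deg := h.deg
  out := h.out
  mul i j := by
    split_ifs with hij
    · subst hij
      exact h.idem i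
    · exact h.orth i j hij
  sum := h.sum
  act i j x hx := by
    split_ifs with hij
    · subst hij
      exact h.act_self i x hx
    · exact h.act_ne i j x hij hx

omit hH in
/-- The radical argument. -/
lemma fix_zero {ι : Type} [Fintype ι] (B : ι → cor0 C X) (S : Finset ι) {q : cor0 C X}
    (hu : ∃ u : cor0 C X, u * (1 - ∑ s ∈ S, q * B s) = 1) {x : C.A X}
    (hP : sg C X (∑ s, B s) x = x) (hq : sg C X q x = x)
    (h0 : ∀ s, s ∉ S → sg C X (B s) x = 0) : x = 0 := by
  classical
  have e5 : x = ∑ s, sg C X (q * B s) x := by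
    have h2 : sg C X (q * ∑ s, B s) x = x := by
      rw [map_mul, Module.End.mul_apply, hP, hq]
    rw [Finset.mul_sum, map_sum, LinearMap.sum_apply] at h2
    exact h2.symm
  have e3 : x = sg C X (∑ s ∈ S, q * B s) x := by
    rw [map_sum, LinearMap.sum_apply]
    refine e5.trans (Finset.sum_subset (Finset.subset_univ S) fun s _ hs => ?_).symm
    rw [map_mul, Module.End.mul_apply, h0 s hs, map_zero]
  obtain ⟨u, hu⟩ := hu
  have e4 : sg C X (1 - ∑ s ∈ S, q * B s) x = 0 := by
    rw [map_sub, LinearMap.sub_apply, map_one, ← e3]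
    exact sub_self x
  calc x = sg C X 1 x := by rw [map_one]; rfl
    _ = 0 := by rw [← hu, map_mul, Module.End.mul_apply, e4, map_zero]

/-- Other decompositions, if phantoms have no cycles. -/
lemma every_of_phantoms {p : C.A (X.prod X)} {τ τ' : ℕ → C.A (X.prod X)} (h : IsMotCK H p τ)
    {m : ℕ} (hn : ∀ i, i ≠ m → HomNil H (τ i)) {l : ℤ} (hph : NoPhantomCycles H p l)
    (h' : IsMotCK H p τ') {i : ℕ} (hN : NoHomCycles H (τ i) l) : NoHomCycles H (τ' i) l := by
  intro z hz hcl
  by_cases hi : i ≤ 2 * X.dim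
  · have hM := motiveCK_of (ckp_of h) 0
    have hM' := motiveCK_of (ckp_of h') 0
    have hnil0 : HomNil H (0 : C.A (X.prod X)) := by
      refine (homNil_iff (H := H) (a := (0 : Cor C X))).2 fun x _ _ => ?_
      rw [zero_mul]
      exact IsNilpotent.zero
    have hl : (X.dim : ℤ) - ((X.dim - l) - 0) = l := by ring
    obtain ⟨s, t, -, -, h3⟩ := conj_act hM (m := 2 * X.dim - m) (fun j hj => by
        by_cases hj1 : j - 2 * 0 ≤ 2 * (X.dim : ℤ)
        · rw [if_pos hj1]
          exact hn _ (by omega)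
        · rw [if_neg hj1]
          exact hnil0) (l := X.dim - l) (fun e he h1 h2 z hz => by
        refine hph e he h1 h2 z ?_
        have hz' : C.Deg ((X.dim : ℤ) - ((X.dim - l) - 0)) z := hz
        rwa [hl] at hz') hM'
    have h4 := h3 (2 * X.dim - i) z (by rw [hl]; exact hz)
    have e1 : ∀ (κ : ℕ → C.A (X.prod X)), (if (2 * (X.dim : ℤ) - i) - 2 * 0 ≤ 2 * X.dim then
        κ (2 * X.dim - ((2 * (X.dim : ℤ) - i) - 2 * 0)).toNat else 0) = κ i := by
      intro κ
      rw [if_pos (by omega)]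
      congr 1
      omega
    have e2 : sg C X (mfam hM' (2 * X.dim - i)) z = C.act (τ' i) z := by
      rw [sg_apply]
      exact congrArg (fun y => C.act y z) (e1 τ')
    have e3 : sg C X (mfam hM (2 * X.dim - i)) (sg C X s z) = C.act (τ i) (sg C X s z) := by
      rw [sg_apply]
      exact congrArg (fun y => C.act y (sg C X s z)) (e1 τ)
    rw [e2, e3, hN _ (sg_mem s hz) (cl_sg_of_zero s hcl), map_zero] at h4
    exact h4
  · rw [h'.out i (by omega)]
    exact C.act_zero z

/-- (D) in terms of the projectors. -/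
lemma satisfiesD_iff {p : C.A (X.prod X)} {π : ℕ → C.A (X.prod X)} (h : IsMotCK H p π) (i : ℤ) :
    SatisfiesD H p π i ↔ ∀ j : ℕ, 2 * i ≤ j → NoHomCycles H (π j) i := by
  classical
  let q : ℕ → cor0 C X := fun j => ⟨π j, h.deg j⟩
  have hq : ∀ j j', q j * q j' = if j = j' then q j else 0 := by
    intro j j'
    apply Subtype.ext
    by_cases hj : j = j'
    · subst hj
      rw [if_pos rfl]
      exact h.idem j
    · rw [if_neg hj]
      exact h.orth j' j (Ne.symm hj)
  let s : Finset ℕ := Finset.range (2 * X.dim + 1)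
  let s' : Finset ℕ := s.filter fun j : ℕ => (j : ℤ) < 2 * i
  have hval : ∀ s : Finset ℕ, ((∑ j ∈ s, q j : cor0 C X) : Cor C X) =
      ∑ j ∈ s, (π j : Cor C X) := fun s => map_sum (cor0 C X).subtype q s
  let P : cor0 C X := ∑ j ∈ s, q j
  let F : cor0 C X := ∑ j ∈ s', q j
  have hP : (P : Cor C X) = p := (hval s).trans h.sum
  have hF : (F : Cor C X) = ∑ j ∈ s', (π j : Cor C X) := hval s'
  have hout : ∀ j, 2 * X.dim < j → q j = 0 := fun j hj => Subtype.ext (h.out j hj)
  have hPq : ∀ j, q j * P = q j := by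
    intro j
    by_cases hj : j < 2 * X.dim + 1
    · rw [Finset.mul_sum, Finset.sum_eq_single j]
      · rw [hq, if_pos rfl]
      · intro j' _ hj'
        rw [hq, if_neg (Ne.symm hj')]
      · exact fun h => absurd (Finset.mem_range.2 hj) h
    · rw [hout j (by omega), zero_mul]
  have hqP : ∀ j, P * q j = q j := by
    intro j
    by_cases hj : j < 2 * X.dim + 1
    · rw [Finset.sum_mul, Finset.sum_eq_single j]
      · rw [hq, if_pos rfl]
      · intro j' _ hj'
        rw [hq, if_neg hj']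
      · exact fun h => absurd (Finset.mem_range.2 hj) h
    · rw [hout j (by omega), mul_zero]
  have hPF : P * F = F := by
    rw [Finset.mul_sum]
    exact Finset.sum_congr rfl fun j _ => hqP j
  have hPP : P * P = P := by
    change P * ∑ j ∈ s, q j = ∑ j ∈ s, q j
    rw [Finset.mul_sum]
    exact Finset.sum_congr rfl fun j _ => hqP j
  have aP : ∀ z, C.act p z = sg C X P z := fun z => by
    rw [sg_apply, hP]
  have aF : ∀ z, C.act (∑ j ∈ s', π j) z = sg C X F z := fun z => by
    rw [sg_apply, hF]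
  have aq : ∀ j z, C.act (π j) z = sg C X (q j) z := fun j z => rfl
  have hfil : ∀ z, z ∈ filOne C π i ↔ ∃ w : C.A X, C.Deg i w ∧ z = sg C X F w := by
    intro z
    constructor
    · rintro ⟨w, hw, e⟩
      exact ⟨w, hw, e.trans (aF w)⟩
    · rintro ⟨w, hw, e⟩
      exact ⟨w, hw, e.trans (aF w).symm⟩
  constructor
  · intro hD j hj z hz hcl
    have h1 : sg C X P z ∈ filOne C π i := by
      rw [hD]
      refine ⟨sg_mem P hz, ?_, ?_⟩
      · rw [aP, ← sg_mul, hPP]
      · rw [← aP]
        exact cl_act_zero' hcl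
    obtain ⟨w, -, hw⟩ := (hfil _).1 h1
    have h2 : q j * F = 0 := by
      rw [Finset.mul_sum]
      refine Finset.sum_eq_zero fun j' hj' => ?_
      rw [Finset.mem_filter] at hj'
      rw [hq, if_neg (by omega)]
    rw [aq, ← hPq j, sg_mul, hw, ← sg_mul, h2, map_zero, LinearMap.zero_apply]
  · intro hN z
    rw [hfil]
    constructor
    · rintro ⟨w, hw, rfl⟩
      refine ⟨sg_mem F hw, ?_, ?_⟩
      · rw [aP, ← sg_mul, hPF]
      · rw [← aF, cl_act H]
        have h3 : ∀ x : H.A X, x ∈ H.gr X (2 * i) → rhoH H X F x = 0 := by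
          intro x hx
          rw [map_sum, LinearMap.sum_apply]
          refine Finset.sum_eq_zero fun j hj => ?_
          rw [Finset.mem_filter] at hj
          exact h.act_ne j (2 * i) x (by omega) hx
        have h4 := h3 _ (H.cl_mem hw)
        rw [rhoH_apply, hF] at h4
        exact h4
    · rintro ⟨hz, hpz, hcl⟩
      refine ⟨z, hz, ?_⟩
      have h1 : P = F + ∑ j ∈ s.filter (fun j : ℕ => ¬ (j : ℤ) < 2 * i), q j :=
        (Finset.sum_filter_add_sum_filter_not s (fun j : ℕ => (j : ℤ) < 2 * i) q).symm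
      have h2 : sg C X (∑ j ∈ s.filter (fun j : ℕ => ¬ (j : ℤ) < 2 * i), q j) z = 0 := by
        rw [map_sum, LinearMap.sum_apply]
        refine Finset.sum_eq_zero fun j hj => ?_
        rw [Finset.mem_filter] at hj
        exact hN j (by omega) z hz hcl
      rw [aP, h1, map_add, LinearMap.add_apply, h2, add_zero] at hpz
      exact hpz.symm

/-- **Murre's conjectures for direct summands.** -/
theorem summands [Finite G] {p : C.A (X.prod X)} {ρ : G → C.A (X.prod X)}
    (hρ : IsMotAction C p ρ) {T : Type} [Fintype T] {Y : T → 𝒱.Obj}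
    {q : ∀ t, C.A ((Y t).prod (Y t))} {r : T → ℤ} {a : ∀ t, C.A (X.prod (Y t))}
    {b : ∀ t, C.A ((Y t).prod X)} (hs : IsRetract C p q r a b)
    {π : ∀ t, ℕ → C.A ((Y t).prod (Y t))} (hπ : ∀ t, IsMotCK H (q t) (π t)) {m : ℕ}
    (hm : m ≤ 2 * X.dim) (hnil : ∀ t (j : ℕ), (j : ℤ) ≠ m - 2 * r t → NilMotive H (π t j)) :
    (∃ τ : ℕ → C.A (X.prod X), IsMotCK H p τ ∧
      (∀ g i, C.comp (ρ g) (τ i) = C.comp (τ i) (ρ g)) ∧
      (∀ (i : ℕ) (l : ℤ), (∀ t (j : ℕ), (j : ℤ) = i - 2 * r t → NoCycles C (π t j) (l - r t)) →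
        NoCycles C (τ i) l) ∧
      (∀ (i : ℕ) (l : ℤ), (∀ t (j : ℕ), (j : ℤ) = i - 2 * r t →
        NoHomCycles H (π t j) (l - r t)) → NoHomCycles H (τ i) l) ∧
      ∀ l : ℤ, (∀ t, SatisfiesD H (q t) (π t) (l - r t)) → SatisfiesD H p τ l) ∧
    ∀ l : ℤ, (∀ t, SatisfiesD H (q t) (π t) (l - r t)) →
      (2 * l ≤ m ∨ NoPhantomCycles H p l) →
      ∀ τ : ℕ → C.A (X.prod X), IsMotCK H p τ → SatisfiesD H p τ l := by
  classical
  have hda : ∀ t, a t ∈ C.gr (X.prod (Y t)) ((X.dim : ℤ) + -(r t : ℤ)) := fun t => by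
    rw [← sub_eq_add_neg]; exact hs.deg_a t
  have hdeg : ∀ (t : T) (j : ℕ), C.comp (C.comp (a t) (π t j)) (b t) ∈
      C.gr (X.prod X) X.dim := by
    intro t j
    have h3 : π t j ∈ C.gr ((Y t).prod (Y t)) (((Y t).dim : ℤ) + 0) := by
      rw [add_zero]; exact (hπ t).deg j
    have h2 := comp_mem C (comp_mem C (hda t) h3) (hs.deg_b t)
    have e1 : (X.dim : ℤ) + (-(r t : ℤ) + 0 + (r t : ℤ)) = X.dim := by ring
    rw [e1] at h2
    exact h2
  let ι : Type := Σ t : T, Fin (2 * (Y t).dim + 1)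
  let B : ι → cor0 C X := fun s => ⟨C.comp (C.comp (a s.1) (π s.1 s.2)) (b s.1), hdeg s.1 s.2⟩
  let wt : ι → ℤ := fun s => ((s.2 : ℕ) : ℤ) + 2 * r s.1
  have hsum : ∑ s, B s = pR hρ := by
    apply Subtype.ext
    have e : ((∑ s, B s : cor0 C X) : Cor C X) = ∑ s, ((B s : cor0 C X) : Cor C X) :=
      map_sum (cor0 C X).subtype B _
    refine e.trans ?_
    change (∑ s : ι, C.comp (C.comp (a s.1) (π s.1 s.2)) (b s.1)) = p
    rw [Fintype.sum_sigma, ← hs.sum]
    refine Finset.sum_congr rfl fun t _ => ?_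
    have e2 : (∑ y : Fin (2 * (Y t).dim + 1), C.comp (C.comp (a t) (π t y)) (b t)) =
        ∑ n ∈ Finset.range (2 * (Y t).dim + 1), C.comp (C.comp (a t) (π t n)) (b t) :=
      Fin.sum_univ_eq_sum_range (fun n => C.comp (C.comp (a t) (π t n)) (b t)) _
    refine e2.trans ?_
    rw [← sum_comp, ← comp_sum, (hπ t).sum]
  have hne : ∀ s (c : ℤ) (x : H.A X), x ∈ H.gr X c → c ≠ wt s → rhoH H X (B s) x = 0 := by
    rintro ⟨t, j⟩ c x hx hc
    change H.act (H.cl (C.comp (C.comp (a t) (π t j)) (b t))) x = 0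
    rw [actH_comp, actH_comp]
    have h1 := actH_mem H (hda t) hx
    rw [(hπ t).act_ne j _ _ ?_ h1]
    · exact H.act_map_zero _
    · intro h2
      apply hc
      change c = ((j : ℕ) : ℤ) + 2 * r t
      omega
  have hstr : ∀ s, wt s ≠ m → Str H ((B s : cor0 C X) : Cor C X) := by
    rintro ⟨t, j⟩ hs
    apply str_comp2
    apply hnil t j
    intro h
    apply hs
    change ((j : ℕ) : ℤ) + 2 * r t = m
    omega
  obtain ⟨τ, t1, t2, t3, t4, t5⟩ := core hρ B wt (m := m) (by omega) hsum hne hstr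
  have hB : ∀ (t : T) (j : Fin (2 * (Y t).dim + 1)) (x : C.A X),
      sg C X (B ⟨t, j⟩) x = C.act (b t) (C.act (π t j) (C.act (a t) x)) := by
    intro t j x
    change C.act (C.comp (C.comp (a t) (π t j)) (b t)) x = _
    rw [C.act_comp, C.act_comp]
  have hact : ∀ t (l : ℤ) (x : C.A X), x ∈ C.gr X l → C.act (a t) x ∈ C.gr (Y t) (l - r t) := by
    intro t l x hx
    have := act_mem' C (hda t) hx
    rwa [← sub_eq_add_neg] at this
  have hBz : ∀ (t : T) (j : Fin (2 * (Y t).dim + 1)) (l : ℤ) (x : C.A X), x ∈ C.gr X l →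
      H.cl x = 0 → NoHomCycles H (π t j) (l - r t) → sg C X (B ⟨t, j⟩) x = 0 := by
    intro t j l x hx hcl hN
    rw [hB, hN _ (hact t l _ hx) (cl_act_zero' hcl)]
    exact C.act_map_zero _
  -- the vanishing
  have key : ∀ (i : ℕ) (z : C.A X), (∀ s, wt s = i → sg C X (B s) (sg C X (τ i) z) = 0) →
      sg C X (τ i) z = 0 := by
    intro i z hz
    refine fix_zero B (Finset.univ.filter (fun s => wt s ≠ i)) (q := τ i) (t4 i) ?_ ?_ ?_
    · rw [hsum, ← sg_mul, t3]
    · have h1 : τ i * τ i = τ i := by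
        apply Subtype.ext
        have := t1.mul i i
        rw [if_pos rfl] at this
        exact this
      rw [← sg_mul, h1]
    · intro s hs
      rw [Finset.mem_filter, not_and, not_not] at hs
      exact hz s (hs (Finset.mem_univ s))
  have h4 : ∀ (i : ℕ) (l : ℤ), (∀ t (j : ℕ), (j : ℤ) = i - 2 * r t →
      NoHomCycles H (π t j) (l - r t)) → NoHomCycles H (τ i : Cor C X) l := by
    intro i l h z hz hcl
    change sg C X (τ i) z = 0
    apply key
    rintro ⟨t, j⟩ hw
    have hw' : ((j : ℕ) : ℤ) + 2 * r t = i := hw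
    exact hBz t j l _ (sg_mem (τ i) hz) (cl_act_zero' hcl) (h t j (by omega))
  have hM : IsMotCK H p (fun i => ((τ i : cor0 C X) : Cor C X)) := IsMotCK.of t1
  have h5 : ∀ l : ℤ, (∀ t, SatisfiesD H (q t) (π t) (l - r t)) → ∀ i : ℕ, 2 * l ≤ i →
      NoHomCycles H (τ i : Cor C X) l := by
    intro l h i hi
    apply h4 i l
    intro t j hj
    exact (satisfiesD_iff (hπ t) _).1 (h t) j (by omega)
  refine ⟨⟨fun i => ((τ i : cor0 C X) : Cor C X), hM, t2, ?_, h4, ?_⟩, ?_⟩
  · intro i l h z hz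
    change sg C X (τ i) z = 0
    apply key
    rintro ⟨t, j⟩ hw
    rw [hB]
    have hw' : ((j : ℕ) : ℤ) + 2 * r t = i := hw
    rw [h t j (by omega) _ (hact t l _ (sg_mem (τ i) hz))]
    exact C.act_map_zero _
  · intro l h
    rw [satisfiesD_iff hM]
    exact h5 l h
  · intro l h hl τ' hτ'
    rw [satisfiesD_iff hτ']
    intro i hi
    rcases hl with hl | hph
    · -- the radical argument for the given decomposition
      intro z hz hcl
      let Q : cor0 C X := ⟨τ' i, hτ'.deg i⟩
      have hQQ : Q * Q = Q := Subtype.ext (hτ'.idem i)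
      have hPQ : pR hρ * Q = Q := by
        apply Subtype.ext
        change C.comp (τ' i) p = τ' i
        rw [← hτ'.sum, comp_sum]
        by_cases hi' : i < 2 * X.dim + 1
        · rw [Finset.sum_eq_single i]
          · exact hτ'.idem i
          · intro j _ hj
            exact hτ'.orth i j (Ne.symm hj)
          · exact fun h => absurd (Finset.mem_range.2 hi') h
        · rw [hτ'.out i (by omega)]
          exact Finset.sum_eq_zero fun j _ => by rw [zero_comp]
      have hrd : Rd (∑ s ∈ Finset.univ.filter (fun s => wt s < 2 * l), Q * B s) := by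
        apply Rd.sum
        intro s hs
        rw [Finset.mem_filter] at hs
        refine rd_str (hstr s (by omega)) ?_
        apply ext_gr H
        intro c x hx
        rw [map_mul, Module.End.mul_apply, LinearMap.zero_apply]
        by_cases hc : c = wt s
        · exact hτ'.act_ne i c _ (by omega) (rho_gr _ hx)
        · rw [hne s c x hx hc, map_zero]
      change sg C X Q z = 0
      refine fix_zero B (Finset.univ.filter (fun s => wt s < 2 * l)) (q := Q) ?_ ?_ ?_ ?_
      · obtain ⟨u, hu⟩ := hrd 1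
        refine ⟨((u⁻¹ : (cor0 C X)ˣ) : cor0 C X), ?_⟩
        rw [one_mul] at hu
        rw [← hu, Units.inv_mul]
      · rw [hsum, ← sg_mul, hPQ]
      · rw [← sg_mul, hQQ]
      · rintro ⟨t, j⟩ hs
        rw [Finset.mem_filter, not_and, not_lt] at hs
        have hw : 2 * l ≤ ((j : ℕ) : ℤ) + 2 * r t := hs (Finset.mem_univ _)
        exact hBz t j l _ (sg_mem Q hz) (cl_sg_of_zero Q hcl)
          ((satisfiesD_iff (hπ t) _).1 (h t) j (by omega))
    · refine every_of_phantoms (m := m) hM (fun j hj => ?_) hph hτ' (h5 l h i hi)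
      refine (homNil_iff (H := H) (a := ((τ j : cor0 C X) : Cor C X))).2 fun x hx hcl => ?_
      obtain ⟨N, hN⟩ := t5 j hj ⟨x, hx⟩ ((rho_zero_iff (H := H) (⟨x, hx⟩ : cor0 C X)).2 hcl)
      exact ⟨N, congrArg (fun y : cor0 C X => (y : Cor C X)) hN⟩

end Pool.Agent.U3.MR
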