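import Pool.Agent.U3.MQ.Ring

/-!
# Lifts of idempotents with control of the ideal which they generate; units
-/

set_option autoImplicit false
set_option linter.unusedSectionVars false

open MulOpposite

universe u v

namespace Pool.Agent.U3.MR

open Pool.Agent.U3.SD Pool.Agent.U3.QP Pool.Agent.U3.MQ

section two

variable {R : Type u} [Ring R] [Algebra ℚ R]

/-- The two-sided ideal generated by `a`. -/
def two (a : R) : Submodule ℚ R := Submodule.span ℚ {x | ∃ u v : R, x = u * a * v}

lemma mul_mem_two {a x r s : R} (h : x ∈ two a) : r * x * s ∈ two a := by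
  unfold two at h
  induction h using Submodule.span_induction with
  | mem x hx =>
    obtain ⟨u, v, rfl⟩ := hx
    refine Submodule.subset_span ⟨r * u, v * s, ?_⟩
    simp only [mul_assoc]
  | zero =>
    rw [mul_zero, zero_mul]
    exact Submodule.zero_mem _
  | add x y _ _ hx hy =>
    rw [mul_add, add_mul]
    exact Submodule.add_mem _ hx hy
  | smul c x _ hx =>
    rw [mul_smul_comm, smul_mul_assoc]
    exact Submodule.smul_mem _ c hx

/-- Elements of the ideal generated by a small element are small. -/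
lemma mem_of_two {a x : R} (h : x ∈ two a) {J : R → Prop} (hJ : ∀ r x, J x → J (r * x))
    {I : Submodule ℚ R} (hI : ∀ r j, J j → r * a * j ∈ I) {r j : R} (hj : J j) :
    r * x * j ∈ I := by
  unfold two at h
  induction h using Submodule.span_induction with
  | mem x hx =>
    obtain ⟨u, v, rfl⟩ := hx
    have e : r * (u * a * v) * j = (r * u) * a * (v * j) := by simp only [mul_assoc]
    rw [e]
    exact hI _ _ (hJ _ _ hj)
  | zero =>
    rw [mul_zero, zero_mul]
    exact Submodule.zero_mem _
  | add x y _ _ hx hy =>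
    rw [mul_add, add_mul]
    exact Submodule.add_mem _ hx hy
  | smul c x _ hx =>
    rw [mul_smul_comm, smul_mul_assoc]
    exact Submodule.smul_mem _ c hx

/-- The elements of the Jacobson radical. -/
def Rd (y : R) : Prop := ∀ r : R, IsUnit (1 - r * y)

lemma Rd.add {y z : R} (hy : Rd y) (hz : Rd z) : Rd (y + z) := by
  intro r
  obtain ⟨u, hu⟩ := hy r
  have h1 := hz (((u⁻¹ : Rˣ) : R) * r)
  have e : 1 - r * (y + z) = (u : R) * (1 - (((u⁻¹ : Rˣ) : R) * r) * z) := by
    rw [mul_sub, mul_one, mul_assoc, ← mul_assoc (u : R), Units.mul_inv, one_mul, hu]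
    noncomm_ring
  rw [e]
  exact u.isUnit.mul h1

lemma Rd.zero : Rd (0 : R) := fun r => by
  rw [mul_zero, sub_zero]
  exact isUnit_one

lemma Rd.sum {ι : Type*} (s : Finset ι) (f : ι → R) (h : ∀ i ∈ s, Rd (f i)) :
    Rd (∑ i ∈ s, f i) := by
  classical
  induction s using Finset.induction_on with
  | empty => rw [Finset.sum_empty]; exact Rd.zero
  | insert a s ha ih =>
    rw [Finset.sum_insert ha]
    exact (h a (Finset.mem_insert_self a s)).add (ih fun i hi => h i (Finset.mem_insert_of_mem hi))

lemma rd_of_nil {y : R} (h : ∀ r, IsNilpotent (r * y)) : Rd y := fun r => (h r).isUnit_one_sub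

end two

section half

variable {R : Type u} [Ring R] [Algebra ℚ R] {G : Type} [Group G] [Fintype G]
  {t : R →+ R} {J : R → Prop}

/-- **Equivariant self-dual lifts.** -/
theorem exists_half_eq2 (ht : IsInv t) (hJ : IsIdl t J) (ρ : G →* R) (hρ : ∀ g, t (ρ g) = ρ g⁻¹)
    (d : ℕ) (a : ℕ → R)
    (h1 : ∀ m < d, ∀ n < d, J (a m * a n - if m = n then a m else 0))
    (h2 : ∀ m < d, ∀ n < d, J (a m * t (a n))) (h3 : ∀ m < d, ∀ n < d, J (t (a m) * a n))
    (h4 : ∀ n < d, ∃ I : Submodule ℚ R, (∀ r j, J j → r * a n * j ∈ I) ∧ ∀ x ∈ I, IsNilpotent x)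
    (h5 : ∀ n < d, ∀ g, J (ρ g * a n - a n * ρ g)) :
    ∃ q : ℕ → R, (∀ m < d, ∀ n < d, q m * q n = if m = n then q m else 0) ∧
      (∀ m < d, ∀ n < d, q m * t (q n) = 0) ∧ (∀ m < d, ∀ n < d, t (q m) * q n = 0) ∧
      (∀ n < d, J (q n - a n)) ∧ (∀ n g, ρ g * q n = q n * ρ g) ∧ ∀ n < d, q n ∈ two (a n) := by
  classical
  have hG : (Fintype.card G : ℚ) ≠ 0 := by exact_mod_cast Fintype.card_ne_zero
  let A : Subalgebra ℚ R := Subalgebra.centralizer ℚ (Set.range ρ)
  have hA : ∀ x : R, x ∈ A ↔ ∀ g, ρ g * x = x * ρ g := by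
    intro x
    change x ∈ Subalgebra.centralizer ℚ (Set.range ρ) ↔ _
    rw [Subalgebra.mem_centralizer_iff]
    constructor
    · intro h g
      exact h _ ⟨g, rfl⟩
    · rintro h _ ⟨g, rfl⟩
      exact h g
  have htA : ∀ x ∈ A, t x ∈ A := by
    intro x hx
    rw [hA] at hx ⊢
    intro g
    have := congrArg t (hx g⁻¹)
    rw [ht.mul, ht.mul, hρ, inv_inv] at this
    exact this.symm
  let tA : A →+ A :=
    { toFun := fun x => ⟨t x, htA x x.2⟩
      map_zero' := Subtype.ext (map_zero t)
      map_add' := fun x y => Subtype.ext (map_add t (x : R) y) }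
  have htA' : ∀ x : A, ((tA x : A) : R) = t x := fun x => rfl
  have hinv : IsInv tA :=
    { mul := fun x y => Subtype.ext (ht.mul (x : R) y)
      inv := fun x => Subtype.ext (ht.inv (x : R)) }
  let JA : A → Prop := fun x => J x
  have hJA : IsIdl tA JA :=
    { zero := hJ.zero
      add := fun h h' => hJ.add h h'
      neg := fun h => hJ.neg h
      left := fun r h => hJ.left (r : R) h
      right := fun r h => hJ.right (r : R) h
      inv := fun h => hJ.inv h }
  -- the averages
  have hsmul : ∀ (c : ℚ) (x : R), J x → J (c • x) := fun c x hx => by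
    rw [Algebra.smul_def]
    exact hJ.left _ hx
  let av : ℕ → R := fun n => (Fintype.card G : ℚ)⁻¹ • ∑ g : G, ρ g * a n * ρ g⁻¹
  have hav : ∀ n, av n ∈ A := by
    intro n
    rw [hA]
    intro g
    simp only [av]
    rw [mul_smul_comm, smul_mul_assoc]
    congr 1
    rw [Finset.mul_sum, Finset.sum_mul]
    refine Fintype.sum_equiv (Equiv.mulLeft g) _ _ fun x => ?_
    have e1 : ρ g * (ρ x * a n * ρ x⁻¹) = ρ (g * x) * a n * ρ x⁻¹ := by
      rw [map_mul]; simp only [mul_assoc]
    have e2 : ρ (g * x) * a n * ρ (g * x)⁻¹ * ρ g = ρ (g * x) * a n * ρ x⁻¹ := by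
      have e3 : (g * x)⁻¹ * g = x⁻¹ := by group
      rw [mul_assoc _ (ρ (g * x)⁻¹), ← map_mul, e3]
    change ρ g * (ρ x * a n * ρ x⁻¹) = ρ (g * x) * a n * ρ (g * x)⁻¹ * ρ g
    rw [e1, e2]
  have hJav : ∀ n < d, J (av n - a n) := by
    intro n hn
    have e1 : av n - a n = (Fintype.card G : ℚ)⁻¹ • ∑ g : G, (ρ g * a n - a n * ρ g) * ρ g⁻¹ := by
      simp only [av]
      have e2 : ∑ g : G, (ρ g * a n - a n * ρ g) * ρ g⁻¹ =
          ∑ g : G, ρ g * a n * ρ g⁻¹ - (Fintype.card G : ℚ) • a n := by
        rw [Finset.sum_congr rfl fun g _ => show (ρ g * a n - a n * ρ g) * ρ g⁻¹ =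
          ρ g * a n * ρ g⁻¹ - a n by
            rw [sub_mul, mul_assoc (a n), ← map_mul, mul_inv_cancel, map_one, mul_one]]
        rw [Finset.sum_sub_distrib, Finset.sum_const, Finset.card_univ, Nat.cast_smul_eq_nsmul]
      rw [e2, smul_sub, smul_smul, inv_mul_cancel₀ hG, one_smul]
    rw [e1]
    exact hsmul _ _ (hJ.sum _ _ fun g _ => hJ.right _ (h5 n hn g))
  let A' : ℕ → A := fun n => ⟨av n, hav n⟩
  obtain ⟨q, q1, q2, q3, q4, q5⟩ := exists_half hinv hJA d A'
    (fun m hm n hn => by
      change J ((((A' m * A' n - if m = n then A' m else 0 : A)) : R))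
      have e : (((A' m * A' n - if m = n then A' m else 0 : A)) : R) =
          av m * av n - if m = n then av m else 0 := by
        split_ifs <;> rfl
      rw [e]
      have e1 := hJ.mul_congr (hJav m hm) (hJav n hn)
      have e2 := h1 m hm n hn
      by_cases hmn : m = n
      · rw [if_pos hmn] at e2 ⊢
        have e3 : av m * av n - av m = (av m * av n - a m * a n) + (a m * a n - a m) -
            (av m - a m) := by abel
        rw [e3]
        exact hJ.sub (hJ.add e1 e2) (hJav m hm)
      · rw [if_neg hmn] at e2 ⊢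
        have e3 : av m * av n - 0 = (av m * av n - a m * a n) + (a m * a n - 0) := by abel
        rw [e3]
        exact hJ.add e1 e2)
    (fun m hm n hn => by
      change J (av m * t (av n))
      have e1 := hJ.mul_congr (hJav m hm) (b := t (av n)) (b' := t (a n)) (by
        rw [← map_sub]; exact hJ.inv (hJav n hn))
      exact hJ.of_sub e1 (h2 m hm n hn))
    (fun m hm n hn => by
      change J (t (av m) * av n)
      have e1 := hJ.mul_congr (a := t (av m)) (a' := t (a m)) (by
        rw [← map_sub]; exact hJ.inv (hJav m hm)) (hJav n hn)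
      exact hJ.of_sub e1 (h3 m hm n hn))
    (fun n hn x hx => by
      obtain ⟨I, hI, hnil⟩ := h4 n hn
      have e : av n * (x : R) ∈ I := by
        simp only [av]
        rw [smul_mul_assoc, Finset.sum_mul]
        refine I.smul_mem _ (I.sum_mem fun g _ => ?_)
        rw [mul_assoc]
        exact hI _ _ (hJ.left _ hx)
      obtain ⟨N, hN⟩ := hnil _ e
      exact ⟨N, Subtype.ext hN⟩) d le_rfl
  refine ⟨fun n => q n, ?_, ?_, ?_, ?_, ?_, ?_⟩
  · intro m hm n hn
    have := congrArg (fun x : A => (x : R)) (q1 m hm n hn)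
    by_cases hmn : m = n
    · rw [if_pos hmn] at this ⊢; exact this
    · rw [if_neg hmn] at this ⊢; exact this
  · intro m hm n hn
    exact congrArg (fun x : A => (x : R)) (q2 m hm n hn)
  · intro m hm n hn
    exact congrArg (fun x : A => (x : R)) (q3 m hm n hn)
  · intro n hn
    have h6 : J ((q n : R) - av n) := q4 n hn
    have : (q n : R) - a n = ((q n : R) - av n) + (av n - a n) := by abel
    rw [this]
    exact hJ.add h6 (hJav n hn)
  · intro n g
    exact (hA _).1 (q n).2 g
  · intro n hn
    obtain ⟨u, v, huv⟩ := q5 n hn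
    have e1 : ((q n : A) : R) = (u : R) * av n * (v : R) :=
      congrArg (fun x : A => (x : R)) huv
    change ((q n : A) : R) ∈ two (a n)
    rw [e1]
    refine mul_mem_two (Submodule.smul_mem _ _ (Submodule.sum_mem _ fun g _ => ?_))
    exact Submodule.subset_span ⟨_, _, rfl⟩

end half

section lift

variable {R : Type u} [Ring R] [Algebra ℚ R] {S : Type v} [Ring S]
variable {G : Type} [Group G] [Fintype G]

/-- **Equivariant lifts** (no involution). -/
theorem exists_lift2 (φ : R →+* S) (ρ : G →* R) (d : ℕ) (a : ℕ → R)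
    (h1 : ∀ m < d, ∀ n < d, φ (a m * a n) = if m = n then φ (a m) else 0)
    (h4 : ∀ n < d, ∃ I : Submodule ℚ R, (∀ r j, φ j = 0 → r * a n * j ∈ I) ∧
      ∀ x ∈ I, IsNilpotent x)
    (h5 : ∀ n < d, ∀ g, φ (ρ g * a n) = φ (a n * ρ g)) :
    ∃ q : ℕ → R, (∀ m < d, ∀ n < d, q m * q n = if m = n then q m else 0) ∧
      (∀ n < d, φ (q n) = φ (a n)) ∧ (∀ n g, ρ g * q n = q n * ρ g) ∧
      ∀ n < d, q n ∈ two (a n) := by
  let ρ' : G →* R × Rᵐᵒᵖ :=
    { toFun := fun g => (ρ g, op (ρ g⁻¹))
      map_one' := by
        rw [inv_one, map_one]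
        rfl
      map_mul' := fun g h => by
        ext
        · simp
        · simp }
  have hρ' : ∀ g, ρ' g = (ρ g, op (ρ g⁻¹)) := fun g => rfl
  obtain ⟨q, q1, -, -, q4, q5, q6⟩ := exists_half_eq2 (isInv_dbl R) (isIdl_dbl φ) ρ'
    (fun g => by
      rw [dbl_apply, hρ', hρ', inv_inv]
      rfl) d (fun n => (a n, 0))
    (fun m hm n hn => by
      have := h1 m hm n hn
      by_cases hmn : m = n
      · rw [if_pos hmn] at this ⊢
        refine ⟨?_, ?_⟩
        · rw [Prod.fst_sub, Prod.fst_mul, map_sub, this, sub_self]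
        · simp
      · rw [if_neg hmn] at this ⊢
        refine ⟨?_, ?_⟩
        · rw [sub_zero, Prod.fst_mul, this]
        · simp)
    (fun m hm n hn => by
      rw [dbl_apply]
      constructor <;> simp)
    (fun m hm n hn => by
      rw [dbl_apply]
      constructor <;> simp)
    (fun n hn => by
      obtain ⟨I, hI, hnil⟩ := h4 n hn
      refine ⟨I.prod ⊥, fun r j hj => ?_, fun x hx => ?_⟩
      · refine ⟨hI _ _ hj.1, ?_⟩
        simp
      · obtain ⟨N, hN⟩ := hnil x.1 hx.1
        have h0 : x.2 = 0 := hx.2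
        refine ⟨N + 1, ?_⟩
        ext
        · rw [Prod.pow_fst, pow_succ, hN, zero_mul]
          rfl
        · rw [Prod.pow_snd, h0, pow_succ, mul_zero]
          rfl)
    (fun n hn g => by
      refine ⟨?_, ?_⟩
      · rw [Prod.fst_sub, Prod.fst_mul, Prod.fst_mul, map_sub, sub_eq_zero]
        exact h5 n hn g
      · simp)
  refine ⟨fun n => (q n).1, fun m hm n hn => ?_, fun n hn => ?_, fun n g => ?_,
    fun n hn => ?_⟩
  · have := congrArg Prod.fst (q1 m hm n hn)
    by_cases hmn : m = n
    · rw [if_pos hmn] at this ⊢; exact this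
    · rw [if_neg hmn] at this ⊢; exact this
  · have := (q4 n hn).1
    rw [Prod.fst_sub, map_sub, sub_eq_zero] at this
    exact this
  · exact congrArg Prod.fst (q5 n g)
  · have h6 := q6 n hn
    change (q n).1 ∈ two (a n)
    generalize q n = y at h6 ⊢
    unfold two at h6
    induction h6 using Submodule.span_induction with
    | mem x hx =>
      obtain ⟨u, v, rfl⟩ := hx
      exact Submodule.subset_span ⟨u.1, v.1, rfl⟩
    | zero => exact Submodule.zero_mem _
    | add x y _ _ hx hy => exact Submodule.add_mem _ hx hy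
    | smul c x _ hx => exact Submodule.smul_mem _ c hx

/-- **Equivariant decompositions of an idempotent `p` all of whose summands but one are small.** -/
theorem exists_decomp2 (φ : R →+* S) (ρ : G →* R) {p : R} (hp : p * p = p)
    (hρ : ∀ g, ρ g * p = p * ρ g) {N m : ℕ} (hm : m < N) (a : ℕ → R)
    (h1 : ∀ i < N, i ≠ m → ∀ j < N, j ≠ m → φ (a i * a j) = if i = j then φ (a i) else 0)
    (h2 : ∀ i < N, i ≠ m → φ (p * a i) = φ (a i) ∧ φ (a i * p) = φ (a i))
    (h4 : ∀ i < N, i ≠ m → ∃ I : Submodule ℚ R, (∀ r j, φ j = 0 → r * a i * j ∈ I) ∧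
      ∀ x ∈ I, IsNilpotent x)
    (h5 : ∀ i < N, i ≠ m → ∀ g, φ (ρ g * a i) = φ (a i * ρ g)) :
    ∃ q : ℕ → R, (∀ i j, q i * q j = if i = j then q i else 0) ∧
      (∀ i, N ≤ i → q i = 0) ∧ ∑ i ∈ Finset.range N, q i = p ∧
      (∀ i < N, i ≠ m → φ (q i) = φ (a i)) ∧ (∀ i g, ρ g * q i = q i * ρ g) ∧
      ∀ i < N, i ≠ m → q i ∈ two (a i) := by
  classical
  let A : Subalgebra ℚ R := Subalgebra.centralizer ℚ {p}
  have hA : ∀ x : R, x ∈ A ↔ p * x = x * p := by
    intro x
    change x ∈ Subalgebra.centralizer ℚ {p} ↔ _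
    rw [Subalgebra.mem_centralizer_iff]
    constructor
    · intro h
      exact h _ rfl
    · rintro h _ rfl
      exact h
  have hpa : ∀ i, p * a i * p ∈ A := by
    intro i
    rw [hA, ← mul_assoc, ← mul_assoc, hp, mul_assoc (p * a i), hp]
  have hφ : ∀ i < N, i ≠ m → φ (p * a i * p) = φ (a i) := by
    intro i hi him
    rw [map_mul, (h2 i hi him).1, ← map_mul, (h2 i hi him).2]
  let φA : A →+* S := φ.comp A.toSubring.subtype
  have hφA : ∀ x : A, φA x = φ x := fun x => rfl
  let ρA : G →* A :=
    { toFun := fun g => ⟨ρ g, (hA _).2 (hρ g).symm⟩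
      map_one' := Subtype.ext (map_one ρ)
      map_mul' := fun g h => Subtype.ext (map_mul ρ g h) }
  let aA : ℕ → A := fun i => if i = m then 0 else ⟨p * a i * p, hpa i⟩
  have haA : ∀ i, i ≠ m → ((aA i : A) : R) = p * a i * p := fun i hi => by
    simp only [aA]
    rw [if_neg hi]
  have haA' : aA m = 0 := if_pos rfl
  obtain ⟨q, q1, q2, q3, q4⟩ := exists_lift2 φA ρA N aA
    (fun i hi j hj => by
      by_cases him : i = m
      · subst him
        rw [haA', zero_mul]
        split_ifs <;> simp
      · by_cases hjm : j = m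
        · subst hjm
          rw [haA', mul_zero, if_neg him, map_zero]
        · have h := h1 i hi him j hj hjm
          rw [hφA, hφA, MulMemClass.coe_mul, haA i him, haA j hjm, map_mul, hφ i hi him,
            hφ j hj hjm, ← map_mul, h])
    (fun i hi => by
      by_cases him : i = m
      · subst him
        refine ⟨⊥, fun r j _ => ?_, fun x hx => ?_⟩
        · rw [haA', mul_zero, zero_mul]
          exact Submodule.zero_mem _
        · rw [(Submodule.mem_bot _).1 hx]
          exact IsNilpotent.zero
      · obtain ⟨I, hI, hnil⟩ := h4 i hi him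
        refine ⟨I.comap A.val.toLinearMap, fun r j hj => ?_, fun x hx => ?_⟩
        · have e : (((r * aA i * j : A)) : R) = ((r : R) * p) * a i * (p * (j : R)) := by
            rw [MulMemClass.coe_mul, MulMemClass.coe_mul, haA i him]
            simp only [mul_assoc]
          change (((r * aA i * j : A)) : R) ∈ I
          rw [e]
          refine hI _ _ ?_
          rw [map_mul]
          have : φ (j : R) = 0 := hj
          rw [this, mul_zero]
        · obtain ⟨n, hn⟩ := hnil _ (show (x : R) ∈ I from hx)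
          exact ⟨n, Subtype.ext hn⟩)
    (fun i hi g => by
      by_cases him : i = m
      · subst him
        rw [haA', zero_mul, mul_zero]
      · rw [hφA, hφA, MulMemClass.coe_mul, MulMemClass.coe_mul, haA i him,
          map_mul φ ((ρA g : A) : R), map_mul φ _ ((ρA g : A) : R), hφ i hi him, ← map_mul,
          ← map_mul]
        exact h5 i hi him g)
  have hqp : ∀ i, p * (q i : R) = (q i : R) * p := fun i => (hA _).1 (q i).2
  have hqq : ∀ i < N, ∀ j < N, (q i : R) * (q j : R) = if i = j then (q i : R) else 0 := by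
    intro i hi j hj
    have := congrArg (fun x : A => (x : R)) (q1 i hi j hj)
    by_cases hij : i = j
    · rw [if_pos hij] at this ⊢; exact this
    · rw [if_neg hij] at this ⊢; exact this
  have hqρ : ∀ i g, ρ g * (q i : R) = (q i : R) * ρ g := fun i g =>
    congrArg (fun x : A => (x : R)) (q3 i g)
  set s : Finset ℕ := (Finset.range N).erase m with hs
  have hmem : ∀ i, i ∈ s ↔ i ≠ m ∧ i < N := fun i => by rw [hs, Finset.mem_erase, Finset.mem_range]
  let f : ℕ → R := fun i => (q i : R) * p
  have hf : ∀ i < N, ∀ j < N, f i * f j = if i = j then f i else 0 := by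
    intro i hi j hj
    have e : f i * f j = ((q i : R) * (q j : R)) * p := by
      simp only [f]
      calc (q i : R) * p * ((q j : R) * p) = (q i : R) * (p * (q j : R)) * p := by
            simp only [mul_assoc]
        _ = (q i : R) * (q j : R) * (p * p) := by rw [hqp]; simp only [mul_assoc]
        _ = _ := by rw [hp]
    rw [e, hqq i hi j hj]
    split_ifs
    · rfl
    · rw [zero_mul]
  have hpf : ∀ i, p * f i = f i := fun i => by
    simp only [f]
    rw [← mul_assoc, hqp, mul_assoc, hp]
  have hfp : ∀ i, f i * p = f i := fun i => by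
    simp only [f]
    rw [mul_assoc, hp]
  have hfρ : ∀ i g, ρ g * f i = f i * ρ g := fun i g => by
    simp only [f]
    rw [← mul_assoc, hqρ, mul_assoc, hρ, ← mul_assoc]
  set F : R := ∑ i ∈ s, f i with hF
  have hFf : ∀ j ∈ s, F * f j = f j := by
    intro j hj
    rw [hF, Finset.sum_mul, Finset.sum_eq_single j]
    · rw [hf j ((hmem j).1 hj).2 j ((hmem j).1 hj).2, if_pos rfl]
    · intro i hi hij
      rw [hf i ((hmem i).1 hi).2 j ((hmem j).1 hj).2, if_neg hij]
    · exact fun h => absurd hj h
  have hfF : ∀ j ∈ s, f j * F = f j := by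
    intro j hj
    rw [hF, Finset.mul_sum, Finset.sum_eq_single j]
    · rw [hf j ((hmem j).1 hj).2 j ((hmem j).1 hj).2, if_pos rfl]
    · intro i hi hij
      rw [hf j ((hmem j).1 hj).2 i ((hmem i).1 hi).2, if_neg (Ne.symm hij)]
    · exact fun h => absurd hj h
  have hFF : F * F = F := by
    conv_lhs => rw [hF]
    rw [Finset.sum_mul, Finset.sum_congr rfl hfF]
  have hpF : p * F = F := by
    rw [hF, Finset.mul_sum]
    exact Finset.sum_congr rfl fun i _ => hpf i
  have hFp : F * p = F := by
    rw [hF, Finset.sum_mul]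
    exact Finset.sum_congr rfl fun i _ => hfp i
  have hFρ : ∀ g, ρ g * F = F * ρ g := fun g => by
    rw [hF, Finset.sum_mul, Finset.mul_sum]
    exact Finset.sum_congr rfl fun i _ => hfρ i g
  have hmm : (p - F) * (p - F) = p - F := by
    rw [sub_mul, mul_sub, mul_sub, hp, hpF, hFp, hFF]
    abel
  have htwo : ∀ i < N, i ≠ m → f i ∈ two (a i) := by
    intro i hi him
    have h6 := q4 i hi
    have h7 : (q i : R) ∈ two (a i) := by
      generalize q i = y at h6 ⊢
      unfold two at h6
      induction h6 using Submodule.span_induction with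
      | mem x hx =>
        obtain ⟨u, v, rfl⟩ := hx
        refine Submodule.subset_span ⟨(u : R) * p, p * (v : R), ?_⟩
        rw [MulMemClass.coe_mul, MulMemClass.coe_mul, haA i him]
        simp only [mul_assoc]
      | zero => exact Submodule.zero_mem _
      | add x y _ _ hx hy => exact Submodule.add_mem _ hx hy
      | smul c x _ hx => exact Submodule.smul_mem _ c hx
    have h8 := mul_mem_two (r := 1) (s := p) h7
    rwa [one_mul] at h8
  refine ⟨fun i => if i = m then p - F else if i < N then f i else 0, ?_, ?_, ?_, ?_, ?_, ?_⟩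
  · intro i j
    by_cases him : i = m
    · by_cases hjm : j = m
      · simp only [if_pos him, if_pos hjm, if_pos (him.trans hjm.symm)]
        exact hmm
      · have hij : i ≠ j := fun h => hjm (h ▸ him)
        simp only [if_pos him, if_neg hjm, if_neg hij]
        split_ifs with hj
        · rw [sub_mul, hpf, hFf j ((hmem j).2 ⟨hjm, hj⟩), sub_self]
        · rw [mul_zero]
    · by_cases hjm : j = m
      · have hij : i ≠ j := fun h => him (h.trans hjm)
        simp only [if_neg him, if_pos hjm, if_neg hij]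
        split_ifs with hi
        · rw [mul_sub, hfp, hfF i ((hmem i).2 ⟨him, hi⟩), sub_self]
        · rw [zero_mul]
      · simp only [if_neg him, if_neg hjm]
        by_cases hi : i < N
        · by_cases hj : j < N
          · rw [if_pos hi, if_pos hj, hf i hi j hj]
          · rw [if_pos hi, if_neg hj, mul_zero, if_neg (by omega)]
        · rw [if_neg hi, zero_mul]
          split_ifs <;> rfl
  · intro i hi
    simp only
    rw [if_neg (by omega), if_neg (by omega)]
  · rw [← Finset.add_sum_erase _ _ (Finset.mem_range.2 hm), ← hs]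
    have e1 : ∑ x ∈ s, (if x = m then p - F else if x < N then f x else 0) = F := by
      rw [hF]
      refine Finset.sum_congr rfl fun i hi => ?_
      rw [hmem] at hi
      rw [if_neg hi.1, if_pos hi.2]
    rw [if_pos rfl, e1]
    abel
  · intro i hi him
    simp only
    rw [if_neg him, if_pos hi]
    simp only [f]
    have e1 := q2 i hi
    rw [hφA, hφA, haA i him, hφ i hi him] at e1
    rw [map_mul, e1, ← map_mul, (h2 i hi him).2]
  · intro i g
    simp only
    split_ifs
    · rw [mul_sub, sub_mul, hρ, hFρ]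
    · exact hfρ i g
    · rw [mul_zero, zero_mul]
  · intro i hi him
    simp only
    rw [if_neg him, if_pos hi]
    exact htwo i hi him

end lift

end Pool.Agent.U3.MR
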